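import Pool.Agent.Helper18.SG.Goals

/-!
# SG packet Z (MP_d3128a_ag, project of helper18): the final arithmetic
-/

set_option autoImplicit false

namespace Pool.Agent.Helper50.SG

open Finset Pool.Agent.Lead.Sh Pool.Agent.Helper43.Ah Pool.Agent.Helper43.Gm
open Pool.Agent.Helper18.SG

theorem two_choose (n : ℕ) : 2 * (n + 1).choose 2 = n * (n + 1) := by
  rw [Nat.choose_two_right, Nat.add_sub_cancel, Nat.mul_comm (n + 1) n]
  exact Nat.mul_div_cancel' (Nat.even_mul_succ_self n).two_dvd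

/-- the choice of `b` -/
theorem exists_b {M d : ℕ} (hM : 2 ≤ M) (hd : 200 * M ^ 3 ≤ d ^ 2) :
    ∃ b, 27 * M ≤ b ^ 2 ∧ b * (2 * M + 1) ≤ d := by
  obtain ⟨r, hr, hr1, hr2⟩ : ∃ r, r = Nat.sqrt (27 * M) ∧ r ^ 2 ≤ 27 * M ∧ 27 * M < (r + 1) ^ 2 :=
    ⟨_, rfl, Nat.sqrt_le' _, Nat.lt_succ_sqrt' _⟩
  refine ⟨r + 1, hr2.le, ?_⟩
  have key : ((r + 1) * (2 * M + 1)) ^ 2 ≤ 200 * M ^ 3 := by
    rcases Nat.lt_or_ge M 3 with h | h
    · have hM2 : M = 2 := by omega
      subst hM2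
      have h7 : r ≤ 7 := by
        by_contra hcon
        have : 8 ^ 2 ≤ r ^ 2 := Nat.pow_le_pow_left (by omega) 2
        omega
      have h8 : (r + 1) * (2 * 2 + 1) ≤ 40 := by omega
      calc ((r + 1) * (2 * 2 + 1)) ^ 2 ≤ 40 ^ 2 := Nat.pow_le_pow_left h8 2
        _ = 200 * 2 ^ 3 := by norm_num
    · have h1 : 8 * (r + 1) ^ 2 ≤ 243 * M + 72 := by
        have h2 : 16 * r ≤ r ^ 2 + 64 := by
          zify
          nlinarith [sq_nonneg ((r : ℤ) - 8)]
        nlinarith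
      have h3 : (243 * M + 72) * (2 * M + 1) ^ 2 ≤ 1600 * M ^ 3 := by
        obtain ⟨k, rfl⟩ := Nat.exists_eq_add_of_le h
        ring_nf
        nlinarith [sq_nonneg (k : ℤ), Nat.zero_le k, Nat.zero_le (k ^ 2), Nat.zero_le (k ^ 3)]
      have h4 : 8 * ((r + 1) * (2 * M + 1)) ^ 2 ≤ 8 * (200 * M ^ 3) := by
        calc 8 * ((r + 1) * (2 * M + 1)) ^ 2 = (8 * (r + 1) ^ 2) * (2 * M + 1) ^ 2 := by ring
          _ ≤ (243 * M + 72) * (2 * M + 1) ^ 2 := Nat.mul_le_mul_right _ h1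
          _ ≤ 1600 * M ^ 3 := h3
          _ = 8 * (200 * M ^ 3) := by ring
      omega
  exact (Nat.pow_le_pow_iff_left (two_ne_zero)).1 (key.trans hd)

theorem goalZ (hF : GoalF) : GoalZ := by
  intro s m d hm hs h
  rcases Nat.lt_or_ge (m 0) 2 with hM | hM
  · -- simple points
    apply Pool.Agent.Lead.Rw.tri_case hm hs d
    have h1 : ((m 0 : ℤ) - 1) * (min (d + 2) (m 0 ^ 2) : ℕ) ≤ 0 := by
      apply mul_nonpos_of_nonpos_of_nonneg
      · have : (m 0 : ℤ) < 2 := by exact_mod_cast hM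
        linarith
      · positivity
    refine h1.trans ?_
    positivity
  · have hle : ∀ k ∈ range s, m k ≤ m 0 := fun k _ => hm (Nat.zero_le k)
    by_cases hd : 200 * m 0 ^ 3 ≤ d ^ 2
    · obtain ⟨b, hb1, hb2⟩ := exists_b hM hd
      have hG := hF (m 0) b d (by omega) hb1 hb2 (range s) m hle
      rw [card_triD] at hG
      rcases le_total (∑ i ∈ range s, Nat.choose (m i + 1) 2) (Nat.choose (d + 2) 2) with h2 | h2
      · exact Or.inl ⟨h2, hG.2 h2⟩
      · exact Or.inr ⟨h2, hG.1 h2⟩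
    · have h3 : 300 * m 0 ^ 3 ≤ ∑ i ∈ range s, m i * (m i + 1) := h.resolve_left hd
      push Not at hd
      have hex : ∃ e : ℕ, 200 * m 0 ^ 3 ≤ e ^ 2 :=
        ⟨200 * m 0 ^ 3, Nat.le_self_pow two_ne_zero _⟩
      classical
      obtain ⟨e, he, hemin⟩ : ∃ e, 200 * m 0 ^ 3 ≤ e ^ 2 ∧ ∀ k < e, k ^ 2 < 200 * m 0 ^ 3 :=
        ⟨Nat.find hex, Nat.find_spec hex, fun k hk => not_le.1 (Nat.find_min hex hk)⟩
      have hde : d ≤ e := by
        by_contra hcon
        push Not at hcon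
        have : e ^ 2 ≤ d ^ 2 := Nat.pow_le_pow_left hcon.le 2
        omega
      have h8 : 8 ≤ m 0 ^ 3 := by
        calc 8 = 2 ^ 3 := by norm_num
          _ ≤ m 0 ^ 3 := Nat.pow_le_pow_left hM 3
      have he1 : 1 ≤ e := by
        by_contra hcon
        have : e = 0 := by omega
        rw [this] at he
        omega
      obtain ⟨f, rfl⟩ := Nat.exists_eq_add_of_le he1
      have hf : f ^ 2 < 200 * m 0 ^ 3 := hemin f (by omega)
      have h4 : (1 + f + 1) * (1 + f + 2) ≤ 300 * m 0 ^ 3 := by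
        have h5 : 20 * f ≤ f ^ 2 + 100 := by
          zify
          nlinarith [sq_nonneg ((f : ℤ) - 10)]
        nlinarith
      obtain ⟨b, hb1, hb2⟩ := exists_b hM he
      have hG := hF (m 0) b (1 + f) (by omega) hb1 hb2 (range s) m hle
      rw [card_triD] at hG
      have h6 : Nat.choose (1 + f + 2) 2 ≤ ∑ i ∈ range s, Nat.choose (m i + 1) 2 := by
        have h7 : 2 * Nat.choose (1 + f + 2) 2 = (1 + f + 1) * (1 + f + 2) := two_choose (1 + f + 1)
        have h9 : 2 * ∑ i ∈ range s, Nat.choose (m i + 1) 2 = ∑ i ∈ range s, m i * (m i + 1) := by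
          rw [mul_sum]
          exact sum_congr rfl fun i _ => two_choose (m i)
        omega
      right
      refine ⟨(Nat.choose_le_choose 2 (by omega)).trans h6, ?_⟩
      refine (hG.1 h6).mono ?_ (Finset.Subset.refl _)
      intro x hx
      rw [mem_triD] at hx ⊢
      omega

end Pool.Agent.Helper50.SG
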