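import Pool.Agent.Helper18.SG.Goals2
import Pool.Agent.Helper18.Tw.Pen

/-!
# SG packet T4 (MP_d3128a_ag, project of helper18): systems without a dominating point
-/

set_option autoImplicit false

namespace Pool.Agent.Helper50.SG

open Finset Pool.Agent.Lead.Sh Pool.Agent.Helper43.Ah Pool.Agent.Helper43.Gm
open Pool.Agent.Helper18.SG
open Helper18.Cusp (Red rr YB kap GoodFor Concl tr tr_lt red_tr cubic_finish DS mem_DS card_DS'
  card_DS_aux rr_zero rr_antitone two_choose_nat)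
open Helper18.Np (fm)
open Helper18.Slab (Uk)
open Helper18.Flag (DR rk)
open Helper18.Tw (rk_eq mem_DR' slab_finish)

theorem exists_tau (hT1 : GoalT1) {d a0 c : ℕ} (hc : (a0 - c) + 3 * c ≤ d) :
    ∃ τ, c ≤ τ ∧ ∀ a : ℕ → ℕ, Red d a → a 0 = a0 → ∀ b, (0 < rr d a b ↔ b ≤ τ) := by
  classical
  refine ⟨Nat.findGreatest (fun b => (a0 - b) + 3 * b ≤ d) d,
    Nat.le_findGreatest (by omega) hc, ?_⟩
  intro a hR ha b
  rw [(hT1 d a hR).1 b, ha]
  constructor
  · intro h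
    exact Nat.le_findGreatest (by omega) h
  · intro h
    have h2 := Nat.findGreatest_spec (P := fun b => (a0 - b) + 3 * b ≤ d) (m := c) (n := d)
      (by omega) hc
    omega

theorem sum_rr_eq {d : ℕ} {a : ℕ → ℕ} (hR : Red d a) :
    2 * ((∑ b ∈ range (d + 1), rr d a b : ℕ) : ℤ) =
      ((d : ℤ) + 1) * (d + 2) - ∑ i ∈ range 9, (a i : ℤ) * ((a i : ℤ) + 1) := by
  rw [← card_DS_aux]
  exact card_DS' hR (by omega)

theorem tot_of {d : ℕ} {a m : ℕ → ℕ} (hR : Red d a) (ham : ∀ i < 9, a i = m i) {X : ℕ}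
    (h : X + ∑ i ∈ range 9, (m i + 1).choose 2 ≤ (d + 2).choose 2) :
    X ≤ ∑ b ∈ range (d + 1), rr d a b := by
  have h1 := sum_rr_eq hR
  have h2 : ∑ i ∈ range 9, (a i : ℤ) * ((a i : ℤ) + 1) =
      2 * ((∑ i ∈ range 9, (m i + 1).choose 2 : ℕ) : ℤ) := by
    push_cast
    rw [mul_sum]
    refine sum_congr rfl fun i hi => ?_
    rw [ham i (mem_range.1 hi)]
    have := two_choose_nat (m i)
    exact_mod_cast this.symm
  have h3 : 2 * (d + 2).choose 2 = (d + 1) * (d + 2) := two_choose_nat (d + 1)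
  have h3' : 2 * (((d + 2).choose 2 : ℕ) : ℤ) = ((d : ℤ) + 1) * (d + 2) := by exact_mod_cast h3
  have h4 : ((X + ∑ i ∈ range 9, (m i + 1).choose 2 : ℕ) : ℤ) ≤ (((d + 2).choose 2 : ℕ) : ℤ) := by
    exact_mod_cast h
  rw [Nat.cast_add] at h4
  have h5 : (X : ℤ) ≤ ((∑ b ∈ range (d + 1), rr d a b : ℕ) : ℤ) := by linarith
  exact_mod_cast h5

theorem card_row {D : Finset (ℕ × ℕ)} {h : ℕ → ℕ} (hD : ∀ x, x ∈ D ↔ x.1 < h x.2) (y : ℕ) :
    (D.filter (fun x => x.2 = y)).card = h y := by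
  have : D.filter (fun x => x.2 = y) = (range (h y)).image fun x => (x, y) := by
    ext x
    rw [mem_filter, hD, mem_image]
    constructor
    · rintro ⟨h1, h2⟩
      subst h2
      exact ⟨x.1, mem_range.2 h1, rfl⟩
    · rintro ⟨t, ht, rfl⟩
      exact ⟨mem_range.1 ht, rfl⟩
  rw [this, card_image_of_injective _ (fun x y h => (Prod.mk.inj h).1), card_range]

theorem good_block (hT1 : GoalT1) (hT2 : GoalT2) (hT3 : GoalT3) (hQK : GoalQK) (hGI : GoalGI)
    {d : ℕ} {a : ℕ → ℕ} (hR : Red d a) {M k τ : ℕ} (hM : 2 ≤ M)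
    (hτ : ∀ b, 0 < rr d a b ↔ b ≤ τ) (hk : 1 ≤ k) (h1 : 2 * M + 2 ≤ τ / k + 1)
    (h2 : τ / k + 1 ≤ 4 * M + 2)
    (htot : 216 * M ^ 3 + 108 * M ^ 2 ≤ ∑ b ∈ range (d + 1), rr d a b)
    {D : Finset (ℕ × ℕ)} (hD : ∀ x, x ∈ D ↔ x.1 < blk (rr d a) k x.2) {m : ℕ → ℕ}
    {s : Finset ℕ} (hs : ∀ i ∈ s, m i ≤ M) : GoodFor D m s := by
  obtain ⟨R, hRd⟩ : ∃ R, R = τ / k + 1 := ⟨_, rfl⟩
  obtain ⟨ℓ, hℓ⟩ : ∃ ℓ : ℕ → ℕ, ∀ y, ℓ y = blk (rr d a) k (τ / k - y) :=
    ⟨fun y => blk (rr d a) k (τ / k - y), fun _ => rfl⟩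
  obtain ⟨-, hT12, hT13⟩ := hT1 d a hR
  obtain ⟨b1, b2, b3, b4⟩ := hT2 (rr d a) τ k hk hτ (rr_antitone hR)
    (fun b hb => hT12 b ((hτ _).2 hb)) (fun b hb => hT13 b ((hτ _).2 hb))
  rw [← hRd] at b1 b2 b4 h1 h2
  simp only [← hℓ] at b1 b2 b3 b4
  have b3' := b3 (by omega)
  rw [← Nat.sub_zero (τ / k), ← hℓ 0] at b3'
  -- the total
  have hτd : τ + 1 ≤ d + 1 := by
    have h3 := (hτ τ).2 le_rfl
    by_contra hcon
    rw [rr_zero (by omega)] at h3
    exact lt_irrefl _ h3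
  have htot2 : ∑ b ∈ range (τ + 1), rr d a b = ∑ b ∈ range (d + 1), rr d a b := by
    apply sum_subset
    · intro b hb
      rw [mem_range] at hb ⊢
      omega
    · intro b _ hb
      rw [mem_range] at hb
      have := (hτ b).not
      omega
  have hsumℓ : 216 * M ^ 3 + 108 * M ^ 2 ≤ ∑ y ∈ range R, ℓ y := by
    rw [b4, htot2]; exact htot
  obtain ⟨c1, c2, c3⟩ := hT3 M R ℓ hM h1 h2 b1 b2 b3' hsumℓ
  -- the region
  have hDR : ∀ x ∈ D, x.2 < R := by
    intro x hx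
    have h3 := (hD x).1 hx
    by_contra hcon
    have h4 : blk (rr d a) k x.2 = 0 := by
      unfold blk
      apply sum_eq_zero
      intro i _
      have h5 := (hτ (k * x.2 + i)).not
      have h6 : τ < k * x.2 := by
        have h7 := Nat.lt_div_mul_add (a := τ) (b := k) (by omega)
        have h8 : k * (τ / k + 1) ≤ k * x.2 := Nat.mul_le_mul_left _ (by omega)
        rw [mul_add, mul_one, mul_comm k (τ / k)] at h8
        omega
      omega
    omega
  have hrow : ∀ y < R, blk (rr d a) k y = ℓ (R - 1 - y) := by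
    intro y hy
    rw [hℓ]
    congr 1
    omega
  have hcard : D.card = ∑ y ∈ range R, ℓ y := by
    rw [card_eq_sum_card_fiberwise (f := Prod.snd) (t := range R)
      (fun x hx => by simpa using hDR x hx), ← sum_range_reflect]
    refine sum_congr rfl fun y hy => ?_
    have hy' := mem_range.1 hy
    rw [card_row hD, hrow _ (by omega)]
    congr 1
    omega
  have key := hGI M D ∅ s m (by omega) (disjoint_empty_left _) hs (by
    intro s' mm' hdis _ hmm hc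
    refine hQK M 0 R ℓ D ∅ s' mm' (by omega) (by omega) c1 ?_ ?_ hDR ?_ hdis hmm ?_
    · simpa using c2
    · simpa using c3
    · intro y hy
      rw [card_row hD, hrow y hy]
      exact Nat.le_add_right _ _
    · rw [← hcard]
      simpa using hc)
  rwa [empty_union] at key

theorem goalT4 (hT1 : GoalT1) (hT2 : GoalT2) (hT3 : GoalT3) (hQK : GoalQK) (hGI : GoalGI) :
    GoalT4 := by
  intro s m d hm hs hd hlt h9 hτ0 htot
  obtain ⟨τ, hτ1, hτ2⟩ := exists_tau hT1 hτ0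
  obtain ⟨k, hkd⟩ : ∃ k, k = τ / (2 * m 9 + 1) := ⟨_, rfl⟩
  have hk : 1 ≤ k := by
    rw [hkd]
    exact (Nat.one_le_div_iff (by omega)).2 hτ1
  have hka : k * (2 * m 9 + 1) ≤ τ := by rw [hkd]; exact Nat.div_mul_le_self _ _
  have hkb : τ < k * (2 * m 9 + 1) + (2 * m 9 + 1) := by
    rw [hkd]; exact Nat.lt_div_mul_add (by omega)
  have h1 : 2 * m 9 + 2 ≤ τ / k + 1 := by
    have : 2 * m 9 + 1 ≤ τ / k := by
      rw [Nat.le_div_iff_mul_le (by omega), mul_comm]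
      exact hka
    omega
  have h2 : τ / k + 1 ≤ 4 * m 9 + 2 := by
    have : τ / k < 4 * m 9 + 2 := by
      rw [Nat.div_lt_iff_lt_mul (by omega)]
      nlinarith
    omega
  have hmS : ∀ i ∈ Ico 9 s, m i ≤ m 9 := fun i hi => hm (mem_Ico.1 hi).1
  rcases Nat.lt_or_ge k 2 with hk2 | hk2
  · -- the cuspidal cubic
    have hk1 : k = 1 := by omega
    obtain ⟨hsum, hR⟩ := red_tr hm hd (j := 9) (by norm_num) le_rfl hlt
    apply cubic_finish s m d 9 hm hs le_rfl hR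
    refine good_block hT1 hT2 hT3 hQK hGI hR h9 (hτ2 _ hR (tr_lt (by norm_num))) hk h1 h2
      (tot_of hR (fun i hi => tr_lt hi) htot) (fun x => ?_) hmS
    rw [mem_DS, hk1]
    unfold blk
    rw [sum_range_one, one_mul, add_zero]
    refine ⟨fun h => h.2, fun h => ⟨?_, h⟩⟩
    by_contra hcon
    rw [rr_zero (by omega)] at h
    exact Nat.not_lt_zero _ h
  · -- a pencil
    have hR : Red d m := ⟨fun i j hij _ => hm hij, hd, hlt⟩
    obtain ⟨z, F, hPD, -⟩ := Pool.Agent.Helper43.Nod.hex k hk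
    have hP := hPD.pencil hk2
    apply slab_finish hm hs hk hP hR
    refine good_block hT1 hT2 hT3 hQK hGI hR h9 (hτ2 _ hR rfl) hk h1 h2
      (tot_of hR (fun i _ => rfl) htot) (fun x => ?_) hmS
    rw [mem_DR' hP hk hR, rk_eq hP hk hR]
    rfl

end Pool.Agent.Helper50.SG
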